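import Pool.Agent.H801.Bic.Time

/-!
# GlobalECC admits a constant-constant bicriteria approximation
-/

namespace Pool.Agent.Results.MP_120f76_lc.ConstantBicriteria

open Pool.Agent.NPC Pool.Agent.H801.Ecc Pool.Agent.H801.Bic

/-- A polynomial-time algorithm that, given a GlobalECC instance together with the list of its
nodes, outputs a nonempty set of colours for every node such that at most eight times the budget
is spent on extra colours and the number of mistakes is at most eight times the least number of
mistakes of an assignment within the budget. -/
theorem result : ∃ F : List Bool → List Bool, PolyTime F ∧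
    ∀ I : Inst, Legal I → ∃ L : List (List ℕ), F (bits (List.range (nodes I), I)) = bits L ∧
      (∀ v < nodes I, (asg L v).Nonempty ∧ asg L v ⊆ Finset.range (colours I)) ∧
      ∑ v ∈ Finset.range (nodes I), ((asg L v).card - 1) ≤ 8 * budget I ∧
      ∀ S, GlobalFeasible I S → mistakes I (asg L) ≤ 8 * mistakes I S := by
  obtain ⟨F, hF, h⟩ := exists_alg
  refine ⟨F, hF, fun I hI => ⟨_, h _, ?_⟩⟩
  have h1 : alg (List.range (nodes I), I) = out (nodes I) (hedges I) (budget I) := by
    unfold alg
    rw [List.length_range]
  rw [h1]
  exact out_spec (n := nodes I) (k := colours I) (E := hedges I) (b := budget I) hI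

end Pool.Agent.Results.MP_120f76_lc.ConstantBicriteria
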